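import Mathlib
import Pool.Agent.H35.Wh.WJ
import Pool.Agent.H35.Wh.TwoA

set_option autoImplicit false

namespace Pool.Agent.Results.MP_65a48b_co.QOneExactlyKFromThree

open Pool.Agent.H35.Wh.Defs Pool.Agent.H35.Wh.Spec Pool.Agent.H35.Wh.WJ

/-- The assertion of Q1 for a given `k`: there is `m₀` such that for all `m ≥ m₀` with
`m + k(k+1)/2 ≡ 0 (mod k)`, every `W_{2k+1}`-free graph with `m` edges and no isolated vertices
has spectral radius at most `(k - 1 + √(4m - k² + 1)) / 2`, with equality exactly for graphs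
isomorphic to `K_k ∨ t K_1` with `t = m/k - (k-1)/2`. -/
def Q1Holds (k : ℕ) : Prop :=
  ∃ m₀ : ℕ, ∀ m : ℕ, m₀ ≤ m → m + k * (k + 1) / 2 ≡ 0 [MOD k] →
    ∀ (V : Type) (_ : Fintype V) (G : SimpleGraph V),
      G.edgeSet.ncard = m → (∀ v, ∃ w, G.Adj v w) → ¬ (wheel (2 * k + 1)).IsContained G →
      specRad G ≤ ((k : ℝ) - 1 + Real.sqrt (4 * m - (k : ℝ) ^ 2 + 1)) / 2 ∧
      (specRad G = ((k : ℝ) - 1 + Real.sqrt (4 * m - (k : ℝ) ^ 2 + 1)) / 2 ↔
        ∃ t : ℕ, (t : ℚ) = (m : ℚ) / k - (k - 1) / 2 ∧ Nonempty (G ≃g splitGraph k t))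

lemma holds (k : ℕ) (hk : 3 ≤ k) : Q1Holds k := by
  classical
  refine ⟨m0 k, ?_⟩
  intro m hm _ V _ G hG hiso hfree
  have hG' : G.edgeFinset.card = m := by
    rw [← hG, Set.ncard_eq_toFinset_card']
    rfl
  have key := main_split k m hk hm G hG' hiso hfree
  have hmpos := m0_pos k m hk hm
  have hVne : Nonempty V := nonempty_of_edges G (by omega)
  have heq : ∀ t : ℕ, (t : ℚ) = (m : ℚ) / k - (k - 1) / 2 → Nonempty (G ≃g splitGraph k t) →
      specRad G = ((k : ℝ) - 1 + Real.sqrt (4 * m - (k : ℝ) ^ 2 + 1)) / 2 := by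
    rintro t ht ⟨e⟩
    have hne : Nonempty (Fin k ⊕ Fin t) := ⟨Sum.inl ⟨0, by omega⟩⟩
    have ht1 : 1 ≤ t := by
      by_contra hcon
      have h0 : t = 0 := by omega
      have h1 := m0_real k m hm
      have h2 : 0 ≤ (10 ^ 100 * (k : ℝ) ^ 100 * 2 ^ (Pool.Agent.H35.Wh.WC.rn k)) ^ 2 :=
        sq_nonneg _
      have hk3 : (3 : ℝ) ≤ k := by exact_mod_cast hk
      have h3 : (t : ℝ) = (m : ℝ) / k - (k - 1) / 2 := by
        have := congrArg (fun q : ℚ => (q : ℝ)) ht
        push_cast at this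
        exact this
      have h4 : (k : ℝ) ≤ (m : ℝ) / k := by
        rw [le_div_iff₀ (by linarith)]
        have : (0 : ℝ) ≤ k := by linarith
        nlinarith
      rw [h0] at h3
      push_cast at h3
      linarith
    rw [specRad_iso G (splitGraph k t) e]
    exact bound_eq k m t (by omega) ht1 ht
  refine ⟨?_, ?_, ?_⟩
  · rcases le_total (specRad G)
      (((k : ℝ) - 1 + Real.sqrt (4 * m - (k : ℝ) ^ 2 + 1)) / 2) with h | h
    · exact h
    · obtain ⟨t, _, ht, hi⟩ := key h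
      exact (heq t ht hi).le
  · intro h
    obtain ⟨t, _, ht, hi⟩ := key h.ge
    exact ⟨t, ht, hi⟩
  · rintro ⟨t, ht, hi⟩
    exact heq t ht hi

lemma fails : ¬ Q1Holds 2 := by
  rintro ⟨m₀, h⟩
  obtain ⟨m, hmem, hm⟩ := (Set.infinite_iff_exists_gt.1
    Pool.Agent.H35.Wh.TwoA.infinite_violations) m₀
  obtain ⟨hmod, V, hV, G, hG, hiso, hfree, hlt⟩ := hmem
  have := (h m hm.le hmod V hV G hG hiso hfree).1
  exact absurd hlt (not_lt.2 this)

/-- Complete answer to Q1: among all `k ≥ 2`, its assertion holds exactly for `k ≥ 3`. -/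
theorem result : ∀ k : ℕ, 2 ≤ k → (Q1Holds k ↔ 3 ≤ k) := by
  intro k hk
  constructor
  · intro h
    by_contra hcon
    have : k = 2 := by omega
    subst this
    exact fails h
  · exact holds k

end Pool.Agent.Results.MP_65a48b_co.QOneExactlyKFromThree
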