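import Mathlib
import Pool.Agent.H35.Wh.WJ
import Pool.Agent.H35.Wh.TwoB

set_option autoImplicit false

namespace Pool.Agent.Results.MP_65a48b_co.QTwoExactlyKFromThree

open Pool.Agent.H35.Wh.Defs Pool.Agent.H35.Wh.Spec Pool.Agent.H35.Wh.WJ

/-- The assertion of Q2 for a given `k`: there is `m₀` such that for all `m ≥ m₀` and all `l, n`
with `1 ≤ l ≤ k-1`, `m + k(k+1)/2 ≡ l (mod k)` and `n = (m-l)/k + (k+3)/2`, every
`W_{2k+1}`-free graph with `m` edges and no isolated vertices has spectral radius at most that of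
`S^{1,l}_{n,k}`, with equality exactly for graphs isomorphic to `S^{1,l}_{n,k}`. -/
def Q2Holds (k : ℕ) : Prop :=
  ∃ m₀ : ℕ, ∀ m : ℕ, m₀ ≤ m → ∀ l n : ℕ, 1 ≤ l → l ≤ k - 1 →
    m + k * (k + 1) / 2 ≡ l [MOD k] →
    (n : ℚ) = ((m : ℚ) - l) / k + (k + 3) / 2 →
    ∀ (V : Type) (_ : Fintype V) (G : SimpleGraph V),
      G.edgeSet.ncard = m → (∀ v, ∃ w, G.Adj v w) → ¬ (wheel (2 * k + 1)).IsContained G →
      specRad G ≤ specRad (S1 n k l) ∧
      (specRad G = specRad (S1 n k l) ↔ Nonempty (G ≃g S1 n k l))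

lemma holds (k : ℕ) (hk : 3 ≤ k) : Q2Holds k := by
  classical
  refine ⟨m0 k, ?_⟩
  intro m hm l n hl1 hl hmod hn V _ G hG hiso hfree
  have hG' : G.edgeFinset.card = m := by
    rw [← hG, Set.ncard_eq_toFinset_card']
    rfl
  have key : specRad (S1 n k l) ≤ specRad G → Nonempty (G ≃g S1 n k l) :=
    main_iso k l m n hk hl1 (by omega) hm hmod hn G hG' hiso hfree
  have hmpos := m0_pos k m hk hm
  have hVne : Nonempty V := nonempty_of_edges G (by omega)
  have hSne : Nonempty (Fin l ⊕ ((Fin (k - l) ⊕ Fin (n - k - 1)) ⊕ Fin 1)) :=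
    ⟨Sum.inr (Sum.inr 0)⟩
  have hiso_eq : Nonempty (G ≃g S1 n k l) → specRad G = specRad (S1 n k l) := by
    rintro ⟨e⟩
    exact specRad_iso G (S1 n k l) e
  refine ⟨?_, ?_, hiso_eq⟩
  · rcases le_total (specRad G) (specRad (S1 n k l)) with h | h
    · exact h
    · exact (hiso_eq (key h)).le
  · intro h
    exact key h.ge

lemma fails : ¬ Q2Holds 2 := by
  rintro ⟨m₀, h⟩
  obtain ⟨m, hmem, hm⟩ := (Set.infinite_iff_exists_gt.1
    Pool.Agent.H35.Wh.TwoB.infinite_violations) m₀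
  obtain ⟨l, n, hl1, hl2, hmod, hn, V, hV, G, hG, hiso, hfree, hlt⟩ := hmem
  have := (h m hm.le l n hl1 hl2 hmod hn V hV G hG hiso hfree).1
  exact absurd hlt (not_lt.2 this)

/-- Complete answer to Q2: among all `k ≥ 2`, its assertion holds exactly for `k ≥ 3`. -/
theorem result : ∀ k : ℕ, 2 ≤ k → (Q2Holds k ↔ 3 ≤ k) := by
  intro k hk
  constructor
  · intro h
    by_contra hcon
    have : k = 2 := by omega
    subst this
    exact fails h
  · exact holds k

end Pool.Agent.Results.MP_65a48b_co.QTwoExactlyKFromThree
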